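import Mathlib

/-!
# MP_75ab16_co: a connected non-tree that is not stackable onto any vertex (Q1: yes)

The triangle `5 6 7` with two leaves `3, 4` at `6` and three leaves `0, 1, 2` at `7`.
-/

namespace Pool.Agent.Results.MP_75ab16_co.DoubleStar

open SimpleGraph

/-- A cup stacking move `u ↦ v` turns `C` into `C'`. -/
def Move {V : Type} [DecidableEq V] (G : SimpleGraph V) (C C' : V → ℕ) : Prop :=
  ∃ u v, 1 ≤ C u ∧ 1 ≤ C v ∧ G.dist u v = C u ∧
    C' = fun w => if w = u then 0 else if w = v then C u + C v else C w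

/-- `G` is `r`-stackable: from one cup on each vertex, moves lead to all cups on `r`. -/
def Stackable {V : Type} [Fintype V] [DecidableEq V] (G : SimpleGraph V) (r : V) : Prop :=
  Relation.ReflTransGen (Move G) (fun _ => 1) (fun w => if w = r then Fintype.card V else 0)

def E : List (Fin 8 × Fin 8) := [(3, 6), (4, 6), (5, 6), (0, 7), (1, 7), (2, 7), (5, 7), (6, 7)]

def H : SimpleGraph (Fin 8) where
  Adj a b := (a, b) ∈ E ∨ (b, a) ∈ E
  symm := ⟨fun _ _ h => h.symm⟩
  loopless := ⟨by decide⟩

instance : DecidableRel H.Adj := fun a b => inferInstanceAs (Decidable ((a, b) ∈ E ∨ (b, a) ∈ E))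

def D (u v : Fin 8) : ℕ :=
  ([[0, 2, 2, 3, 3, 2, 2, 1], [2, 0, 2, 3, 3, 2, 2, 1], [2, 2, 0, 3, 3, 2, 2, 1],
    [3, 3, 3, 0, 2, 2, 1, 2], [3, 3, 3, 2, 0, 2, 1, 2], [2, 2, 2, 2, 2, 0, 1, 1],
    [2, 2, 2, 1, 1, 1, 0, 1], [1, 1, 1, 2, 2, 1, 1, 0]].getD u.1 []).getD v.1 0

theorem walk_ex (w : Fin 8) : ∀ k u, D u w = k → ∃ p : H.Walk u w, p.length = k := by
  have h1 : ∀ u w, D u w = 0 → u = w := by decide
  have h2 : ∀ u w, D u w ≠ 0 → ∃ v, H.Adj u v ∧ D v w + 1 = D u w := by decide
  intro k
  induction k with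
  | zero => intro u h; obtain rfl := h1 u w h; exact ⟨Walk.nil, rfl⟩
  | succ k ih =>
    intro u h
    obtain ⟨v, hv, e⟩ := h2 u w (by omega)
    obtain ⟨p, hp⟩ := ih v (by omega)
    exact ⟨Walk.cons hv p, by simp [hp]⟩

theorem dist_eq (u w : Fin 8) : H.dist u w = D u w := by
  have h1 : ∀ u v w, H.Adj u v → D u w ≤ D v w + 1 := by decide
  have h0 : ∀ u, D u u = 0 := by decide
  have low : ∀ (u w) (p : H.Walk u w), D u w ≤ p.length := by
    intro u w p
    induction p with
    | nil => rw [h0]; exact Nat.zero_le _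
    | cons h p ih => exact (h1 _ _ _ h).trans (by simpa using ih)
  obtain ⟨p, hp⟩ := walk_ex w _ u rfl
  obtain ⟨q, hq⟩ := p.reachable.exists_walk_length_eq_dist
  exact le_antisymm (hp ▸ dist_le p) (hq ▸ low u w q)

def L : List (Fin 8) := [⟨0, by decide⟩, ⟨1, by decide⟩, ⟨2, by decide⟩, ⟨3, by decide⟩,
  ⟨4, by decide⟩, ⟨5, by decide⟩, ⟨6, by decide⟩, ⟨7, by decide⟩]

def get (s : ℕ) (u : Fin 8) : ℕ := (s >>> (4 * u.1)) % 16

def strict (n : ℕ) (f : ℕ → Bool) : Bool :=
  match n with
  | 0 => f 0
  | k + 1 => f (k + 1)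

theorem strict_eq (n : ℕ) (f : ℕ → Bool) : strict n f = f n := by cases n <;> rfl

def dead : ℕ → ℕ → Bool
  | 0, _ => false
  | f + 1, s => L.all fun u => strict (get s u) fun c => c == 0 || (c != 8 && L.all fun v =>
      D u v != c || get s v == 0 || strict (s - c * 16 ^ u.1 + c * 16 ^ v.1) fun t =>
        (L.all fun w => get t w == if w = u then 0 else if w = v then c + get s v else get s w) &&
          dead f t)

theorem dead_sound (r : Fin 8) : ∀ f s, dead f s = true →
    ¬ Relation.ReflTransGen (Move H) (get s) (fun w => if w = r then 8 else 0) := by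
  have hL : ∀ u, u ∈ L := by decide
  intro f
  induction f with
  | zero => intro s h; simp [dead] at h
  | succ f ih =>
    intro s h hr
    simp only [dead, strict_eq, List.all_eq_true, Bool.or_eq_true, Bool.and_eq_true, beq_iff_eq,
      bne_iff_ne] at h
    rcases hr.cases_head with e | ⟨C, ⟨u, v, hu, hv, hd, rfl⟩, hC⟩
    · have := congrFun e r
      simp only [if_true] at this
      rcases h r (hL r) with h | h
      · omega
      · exact h.1 this
    · rcases h u (hL u) with h | h
      · omega
      · rcases h.2 v (hL v) with (h | h) | h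
        · exact h (by rw [← hd, dist_eq])
        · omega
        · refine ih _ h.2 ?_
          rw [funext fun w => h.1 w (hL w)]
          exact hC

theorem search : dead 9 286331153 = true := by decide +kernel

/-- A connected graph that is not a tree and is not `r`-stackable for any vertex `r`. -/
theorem result : ∃ G : SimpleGraph (Fin 8), G.Connected ∧ ¬ G.IsTree ∧ ∀ r, ¬ Stackable G r := by
  refine ⟨H, ⟨fun u v => ?_⟩, fun h => ?_, fun r hr => ?_⟩
  · obtain ⟨p, -⟩ := walk_ex v _ u rfl
    exact p.reachable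
  · have := h.card_edgeFinset
    revert this
    decide +kernel
  · refine dead_sound r 9 _ search ?_
    have : get 286331153 = fun _ => 1 := by
      funext w
      revert w
      decide
    rw [this]
    simpa [Stackable] using hr

end Pool.Agent.Results.MP_75ab16_co.DoubleStar
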